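import Pool.Agent.Lib.MP_05ecc1_an.Tetra

set_option autoImplicit false

/-!
# MP_05ecc1_an: four equal charges in `ℝ⁴` with at least eleven nondegenerate critical points
-/

open Filter Topology Pool.Agent.Lib.MP_05ecc1_an
open scoped RealInnerProductSpace

namespace Pool.Agent.Results.MP_05ecc1_an.Tetrahedron

/-- The Newtonian potential `∑ q_i |x - p_i|^(2-n)` of the charges `q i` at the points `p i` of
`ℝ^n`. -/
noncomputable def potential {n N : ℕ} (p : Fin N → EuclideanSpace ℝ (Fin n)) (q : Fin N → ℝ)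
    (x : EuclideanSpace ℝ (Fin n)) : ℝ :=
  ∑ i, q i * ‖x - p i‖ ^ ((2 : ℤ) - (n : ℤ))

/-- `x` is a critical point of the potential: it is none of the charges, and the derivative of the
potential at `x` exists and is zero. -/
def IsCritical {n N : ℕ} (p : Fin N → EuclideanSpace ℝ (Fin n)) (q : Fin N → ℝ)
    (x : EuclideanSpace ℝ (Fin n)) : Prop :=
  (∀ i, x ≠ p i) ∧ HasFDerivAt (potential p q) (0 : EuclideanSpace ℝ (Fin n) →L[ℝ] ℝ) x

/-- `x` is an isolated critical point: some neighbourhood contains no other critical point. -/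
def IsIsolatedCritical {n N : ℕ} (p : Fin N → EuclideanSpace ℝ (Fin n)) (q : Fin N → ℝ)
    (x : EuclideanSpace ℝ (Fin n)) : Prop :=
  IsCritical p q x ∧ ∃ U ∈ 𝓝 x, ∀ y ∈ U, IsCritical p q y → y = x

/-- The second derivative at `x` is a nondegenerate bilinear form. -/
def IsNondegenerate {n N : ℕ} (p : Fin N → EuclideanSpace ℝ (Fin n)) (q : Fin N → ℝ)
    (x : EuclideanSpace ℝ (Fin n)) : Prop :=
  DifferentiableAt ℝ (fderiv ℝ (potential p q)) x ∧
    Function.Injective (fderiv ℝ (fderiv ℝ (potential p q)) x)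

theorem potential_eq (x : E4) : potential pa (fun _ => 1) x = ∑ i, (1 : ℝ) / ‖x - pa i‖ ^ 2 := by
  unfold potential
  refine Finset.sum_congr rfl fun i _ => ?_
  have h : ((2 : ℤ) - ((4 : ℕ) : ℤ)) = -((2 : ℕ) : ℤ) := by norm_num
  rw [h, zpow_neg, zpow_natCast, one_mul, one_div]

theorem potential_eq' : potential pa (fun _ => 1) = fun x : E4 => ∑ i, (1 : ℝ) / ‖x - pa i‖ ^ 2 :=
  funext potential_eq

theorem crit_iff' (x : E4) : IsCritical pa (fun _ => 1) x ↔ (∀ i, x ≠ pa i) ∧ Vf pa x = 0 := by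
  unfold IsCritical
  rw [potential_eq']
  refine and_congr_right fun h => ?_
  have h1 := hd_f pa x h
  rw [← crit_iff pa x h]
  constructor
  · intro h2; exact h2.fderiv
  · intro h2
    rw [h1.fderiv] at h2
    rw [h2] at h1
    exact h1

theorem nondeg (x : E4) (h : ∀ i, x ≠ pa i) (hH : ∀ v, Hf pa x v = 0 → v = 0) :
    IsNondegenerate pa (fun _ => 1) x := by
  unfold IsNondegenerate
  rw [potential_eq']
  have hev : ∀ᶠ z in 𝓝 x, ∀ i, z ≠ pa i :=
    eventually_all.2 fun i => (isOpen_ne.mem_nhds (h i) : ∀ᶠ z in 𝓝 x, z ≠ pa i)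
  have e : (fun z : E4 => (-2 : ℝ) • innerSL ℝ (Vf pa z)) =ᶠ[𝓝 x]
      fderiv ℝ (fun x : E4 => ∑ i, (1 : ℝ) / ‖x - pa i‖ ^ 2) := by
    filter_upwards [hev] with z hz
    exact (hd_f pa z hz).fderiv.symm
  have h1 : HasFDerivAt (fun z : E4 => (-2 : ℝ) • innerSL ℝ (Vf pa z))
      ((-2 : ℝ) • ((innerSL ℝ : E4 →L[ℝ] (E4 →L[ℝ] ℝ)).comp (Hf pa x))) x := by
    have h2 := (innerSL ℝ : E4 →L[ℝ] (E4 →L[ℝ] ℝ)).hasFDerivAt (x := Vf pa x)
    exact (h2.comp x (hd_V pa x h)).const_smul (-2 : ℝ)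
  have h3 := h1.congr_of_eventuallyEq e.symm
  refine ⟨h3.differentiableAt, ?_⟩
  rw [h3.fderiv]
  rw [injective_iff_map_eq_zero]
  intro v hv
  apply hH
  have h4 := congrArg (fun L : E4 →L[ℝ] ℝ => L (Hf pa x v)) hv
  have h5 : (-2 : ℝ) * ⟪Hf pa x v, Hf pa x v⟫ = 0 := by simpa using h4
  have h6 : ⟪Hf pa x v, Hf pa x v⟫ = 0 := by linarith
  exact inner_self_eq_zero.mp h6

theorem isolated (x : E4) (h : ∀ i, x ≠ pa i) (hV : Vf pa x = 0)
    (hH : ∀ v, Hf pa x v = 0 → v = 0) : IsIsolatedCritical pa (fun _ => 1) x := by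
  refine ⟨(crit_iff' x).2 ⟨h, hV⟩, ?_⟩
  obtain ⟨ε, hε, h1⟩ := isol pa x h hH
  refine ⟨Metric.ball x ε, Metric.ball_mem_nhds x hε, ?_⟩
  intro y hy hc
  by_contra hne
  have h2 := (crit_iff' y).1 hc
  exact h1 y (Metric.mem_ball.1 hy) hne h2.1 ((crit_iff pa y h2.1).2 h2.2)

theorem centre_good : Good (0 : E4) := by
  set z : E4 := 0 with hz
  have n0 : ‖z - pa 0‖ ^ 2 = 3 := by rw [nsq]; simp [hz, pa]; norm_num
  have n1 : ‖z - pa 1‖ ^ 2 = 3 := by rw [nsq]; simp [hz, pa]; norm_num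
  have n2 : ‖z - pa 2‖ ^ 2 = 3 := by rw [nsq]; simp [hz, pa]; norm_num
  have n3 : ‖z - pa 3‖ ^ 2 = 3 := by rw [nsq]; simp [hz, pa]; norm_num
  have hn : ∀ i, z ≠ pa i := by
    intro i hi
    have : ‖z - pa i‖ ^ 2 = 0 := by rw [hi]; simp
    fin_cases i
    · simp only [Fin.zero_eta] at this; rw [n0] at this; norm_num at this
    · simp only [Fin.mk_one] at this; rw [n1] at this; norm_num at this
    · have h' : ‖z - pa 2‖ ^ 2 = 0 := this
      rw [n2] at h'; norm_num at h'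
    · have h' : ‖z - pa 3‖ ^ 2 = 0 := this
      rw [n3] at h'; norm_num at h'
  refine ⟨hn, ?_, ?_⟩
  · rw [Vf_zero_iff]
    intro j
    rw [Fin.sum_univ_four, n0, n1, n2, n3]
    fin_cases j <;> simp [hz, pa]
  · intro v hv
    have e := Hf_coord z v hv
    simp only [Fin.sum_univ_four, n0, n1, n2, n3, inn] at e
    have e0 := e 0
    have e1 := e 1
    have e2 := e 2
    have e3 := e 3
    simp [hz, pa] at e0 e1 e2 e3
    ext j
    fin_cases j
    · show v 0 = 0
      linarith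
    · show v 1 = 0
      linarith
    · show v 2 = 0
      linarith
    · show v 3 = 0
      linarith

theorem dist_pa (i j : Fin 4) (h : i ≠ j) : dist (pa i) (pa j) = Real.sqrt 8 := by
  rw [dist_eq_norm, ← Real.sqrt_sq (norm_nonneg (pa i - pa j))]
  congr 1
  rw [nsq]
  fin_cases i <;> fin_cases j <;> first | exact absurd rfl h | (simp [pa]; norm_num)

/-- **Four unit charges at the vertices of a regular tetrahedron in `ℝ⁴` produce at least
`11 > (4 - 1)²` isolated critical points, all of them nondegenerate.** -/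
theorem result : ∃ p : Fin 4 → EuclideanSpace ℝ (Fin 4),
    (∃ r : ℝ, 0 < r ∧ ∀ i j, i ≠ j → dist (p i) (p j) = r) ∧
    ∃ S : Finset (EuclideanSpace ℝ (Fin 4)), S.card = 11 ∧
      ∀ x ∈ S, IsIsolatedCritical p (fun _ => 1) x ∧ IsNondegenerate p (fun _ => 1) x := by
  classical
  obtain ⟨t, ht, ht0⟩ := exists_t
  obtain ⟨s, hs, hs1, hs2⟩ := exists_s
  refine ⟨pa, ⟨Real.sqrt 8, by positivity, dist_pa⟩,
    insert 0 (Finset.univ.map ⟨pt t s, pt_inj t s ht0 (by linarith)⟩), ?_, ?_⟩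
  · rw [Finset.card_insert_of_notMem]
    · simp
    · intro h
      rw [Finset.mem_map] at h
      obtain ⟨i, -, hi⟩ := h
      have h0 := congrArg (fun w : E4 => w 0) hi
      have h1 := congrArg (fun w : E4 => w 1) hi
      have h2 := congrArg (fun w : E4 => w 2) hi
      fin_cases i <;> simp [pt] at h0 h1 h2 <;> linarith
  · intro x hx
    have hg : Good x := by
      rw [Finset.mem_insert, Finset.mem_map] at hx
      rcases hx with rfl | ⟨i, -, rfl⟩
      · exact centre_good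
      · exact pt_good t s ht hs hs1 hs2 i
    exact ⟨isolated x hg.1 hg.2.1 hg.2.2, nondeg x hg.1 hg.2.2⟩

end Pool.Agent.Results.MP_05ecc1_an.Tetrahedron
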